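import Pool.Agent.FS.TodaB2.Toda

set_option autoImplicit false

/-! The single sum of Gaussian binomial coefficients solves the Toda recurrence. -/

namespace Pool.Agent.FS.TodaB2

open Finset

variable {K : Type*} [Field K]

/-- The Pascal rule of the Gaussian binomial coefficients in base `p`. -/
structure Pas (p : K) (g : ℕ → ℕ → K) : Prop where
  right : ∀ n, g n 0 = 1
  left : ∀ k, g 0 (k + 1) = 0
  step : ∀ n k, g (n + 1) (k + 1) = g n k + p ^ (k + 1) * g n (k + 1)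

variable {p : K} {g : ℕ → ℕ → K}

lemma Pas.big (h : Pas p g) (n : ℕ) : ∀ k, n < k → g n k = 0 := by
  induction n with
  | zero => intro k hk; obtain ⟨j, rfl⟩ : ∃ j, k = j + 1 := ⟨k - 1, by omega⟩; exact h.left j
  | succ n ih =>
    intro k hk
    obtain ⟨j, rfl⟩ : ∃ j, k = j + 1 := ⟨k - 1, by omega⟩
    rw [h.step, ih j (by omega), ih (j + 1) (by omega), mul_zero, add_zero]

lemma Pas.diag (h : Pas p g) (n : ℕ) : g n n = 1 := by
  induction n with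
  | zero => exact h.right 0
  | succ n ih => rw [h.step, ih, h.big n (n + 1) (by omega), mul_zero, add_zero]

lemma Pas.one_of (h : Pas p g) {n : ℕ}
    (h3 : ∀ k, g n (k + 1) * (1 - p ^ (k + 1)) * p ^ k = g n k * (p ^ k - p ^ n)) (k : ℕ) :
    g (n + 1) k * (p ^ k - p ^ (n + 1)) = g n k * p ^ k * (1 - p ^ (n + 1)) := by
  cases k with
  | zero => rw [h.right, h.right]; ring
  | succ j => rw [h.step]; linear_combination (-p) * h3 j

lemma Pas.three (h : Pas p g) (n : ℕ) :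
    ∀ k, g n (k + 1) * (1 - p ^ (k + 1)) * p ^ k = g n k * (p ^ k - p ^ n) := by
  induction n with
  | zero =>
    intro k
    cases k with
    | zero => rw [h.left]; ring
    | succ j => rw [h.left, h.left]; ring
  | succ n ih =>
    intro k
    rw [h.one_of ih, h.step]
    linear_combination p ^ (k + 1) * ih k

lemma Pas.one (h : Pas p g) (n k : ℕ) :
    g (n + 1) k * (p ^ k - p ^ (n + 1)) = g n k * p ^ k * (1 - p ^ (n + 1)) :=
  h.one_of (h.three n) k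

lemma Pas.two (h : Pas p g) (hp : p ≠ 0) (n k : ℕ) :
    g (n + 1) (k + 1) * (1 - p ^ (k + 1)) = g n k * (1 - p ^ (n + 1)) := by
  refine mul_right_cancel₀ (pow_ne_zero k hp) ?_
  rw [h.three, h.one]; ring

/-- The single sum. -/
def CC (q : K) (g g' : ℕ → ℕ → K) (a b : ℕ) : K :=
  ∑ k ∈ range (a + 1), q ^ (k ^ 2) * g a k ^ 2 * g' (a + b - k) a

lemma term {q z A B w γ γ₁ γ₂ δ δ₁ δ₂ Y : K} (hq : q ≠ 0) (hz : z ≠ 0) (hA : A ≠ 0) (hB : B ≠ 0)
    (hY : 1 - Y ≠ 0) (eY : Y * z ^ 2 = A ^ 2 * B) (e1 : γ * (z - A) = γ₁ * z * (1 - A))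
    (e2 : γ₂ * (1 - z * q) * z = γ * (z - A)) (e3 : δ * (1 - A ^ 2) = δ₁ * (1 - Y))
    (e4 : δ * (A ^ 2 - Y) = δ₂ * A ^ 2 * (1 - Y)) :
    (A + B * A⁻¹ + A * B⁻¹ + A⁻¹ - 4) * (w * γ ^ 2 * δ) -
      (B + 1) * A⁻¹ * (1 - A) ^ 2 * (w * γ₁ ^ 2 * δ₁) - A * B⁻¹ * (1 - B) ^ 2 * (w * γ ^ 2 * δ₂) =
      -2 * (z * q)⁻¹ * (1 - z * q) ^ 2 * (w * (z * z * q) * γ₂ ^ 2 * δ₂) -
        -2 * z⁻¹ * (1 - z) ^ 2 * (w * γ ^ 2 * δ) := by
  have f1 : (1 - A) ^ 2 * γ₁ ^ 2 = (γ * (z - A) / z) ^ 2 := by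
    rw [e1]; field_simp
  have f2 : (1 - z * q) ^ 2 * γ₂ ^ 2 = (γ * (z - A) / z) ^ 2 := by
    rw [← e2]; field_simp
  have f3 : δ₁ = δ * (1 - A ^ 2) / (1 - Y) := by rw [e3]; field_simp
  have f4 : δ₂ = δ * (A ^ 2 - Y) / (A ^ 2 * (1 - Y)) := by rw [e4]; field_simp
  have f5 : B = Y * z ^ 2 / A ^ 2 := by rw [eY]; field_simp
  have hY0 : Y ≠ 0 := by
    rintro rfl
    rw [zero_mul, zero_div] at f5
    exact hB f5
  have g1 : (B + 1) * A⁻¹ * (1 - A) ^ 2 * (w * γ₁ ^ 2 * δ₁) =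
      (B + 1) * A⁻¹ * ((1 - A) ^ 2 * γ₁ ^ 2) * (w * δ₁) := by ring
  have g2 : -2 * (z * q)⁻¹ * (1 - z * q) ^ 2 * (w * (z * z * q) * γ₂ ^ 2 * δ₂) =
      -2 * z * ((1 - z * q) ^ 2 * γ₂ ^ 2) * (w * δ₂) := by field_simp
  rw [g1, g2, f1, f2, f3, f4, f5]
  field_simp
  ring

theorem CC_rec {q : K} (hq : q ≠ 0) (h1 : ∀ n, 1 - (q ^ 2) ^ (n + 1) ≠ 0) {g g' : ℕ → ℕ → K}
    (hg : Pas q g) (hg' : Pas (q ^ 2) g') (a b : ℕ) :
    (q ^ a + (q ^ 2) ^ b * (q ^ a)⁻¹ + q ^ a * ((q ^ 2) ^ b)⁻¹ + (q ^ a)⁻¹ - 4) * CC q g g' a b =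
      ((q ^ 2) ^ b + 1) * (q ^ a)⁻¹ * (1 - q ^ a) ^ 2 * sh (fun x => CC q g g' x b) a +
        q ^ a * ((q ^ 2) ^ b)⁻¹ * (1 - (q ^ 2) ^ b) ^ 2 * sh (CC q g g' a) b := by
  have c0 : ∀ a, CC q g g' a 0 = 1 := by
    intro a
    rw [CC, sum_range_succ', sum_eq_zero, hg.right]
    · simp [hg'.diag]
    · intro k hk
      rw [hg'.big _ _ (by have := mem_range.1 hk; omega), mul_zero]
  have c1 : ∀ b, CC q g g' 0 b = 1 := by
    intro b
    simp [CC, hg.right, hg'.right]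
  have hA := pow_ne_zero a hq
  have hQ := pow_ne_zero 2 hq
  have hB := pow_ne_zero b hQ
  cases b with
  | zero =>
    cases a with
    | zero => simp only [sh_zero, pow_zero]; ring
    | succ a =>
      simp only [sh_zero, sh_succ, c0, pow_zero]
      field_simp
      ring
  | succ b =>
    cases a with
    | zero =>
      simp only [sh_zero, sh_succ, c1, pow_zero]
      field_simp
      ring
    | succ a =>
      simp only [sh_succ]
      have e1 : CC q g g' a (b + 1) =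
          ∑ k ∈ range (a + 1 + 1), q ^ (k ^ 2) * g a k ^ 2 * g' (a + (b + 1) - k) a := by
        rw [sum_range_succ _ (a + 1), hg.big a (a + 1) (by omega), CC]
        ring
      have tel := sum_range_sub (fun k => -2 * (q ^ k)⁻¹ * (1 - q ^ k) ^ 2 *
        (q ^ (k ^ 2) * g (a + 1) k ^ 2 * g' (a + 1 + (b + 1) - k) (a + 1))) (a + 1 + 1)
      rw [hg.big (a + 1) (a + 1 + 1) (by omega)] at tel
      have tel0 : ∑ k ∈ range (a + 1 + 1), (-2 * (q ^ (k + 1))⁻¹ * (1 - q ^ (k + 1)) ^ 2 *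
          (q ^ ((k + 1) ^ 2) * g (a + 1) (k + 1) ^ 2 * g' (a + 1 + (b + 1) - (k + 1)) (a + 1)) -
          -2 * (q ^ k)⁻¹ * (1 - q ^ k) ^ 2 *
          (q ^ (k ^ 2) * g (a + 1) k ^ 2 * g' (a + 1 + (b + 1) - k) (a + 1))) = 0 := by
        rw [tel]; simp
      rw [e1, CC, CC, mul_sum, mul_sum, mul_sum, ← sub_eq_zero, ← sub_sub, ← sum_sub_distrib,
        ← sum_sub_distrib, ← tel0]
      refine sum_congr rfl fun k hk => ?_
      obtain ⟨m, hm⟩ : ∃ m, a + 1 + b = k + m := ⟨a + 1 + b - k, by have := mem_range.1 hk; omega⟩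
      rw [show a + 1 + (b + 1) - k = m + 1 by omega, show a + (b + 1) - k = m by omega,
        show a + 1 + b - k = m by omega, show a + 1 + (b + 1) - (k + 1) = m by omega,
        show (k + 1) ^ 2 = k ^ 2 + (k + k + 1) by ring, pow_add q (k ^ 2), pow_succ q (k + k),
        pow_add q k k, pow_succ q k]
      have s : (q ^ (a + 1)) ^ 2 = (q ^ 2) ^ (a + 1) := by rw [← pow_mul, ← pow_mul, mul_comm]
      refine term (Y := (q ^ 2) ^ (m + 1)) hq (pow_ne_zero k hq) hA hB (h1 m) ?_ (hg.one a k) ?_ ?_ ?_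
      · rw [s, ← pow_add, show a + 1 + (b + 1) = m + 1 + k by omega, pow_add (q ^ 2) (m + 1) k,
          ← pow_mul q k 2, ← pow_mul q 2 k, mul_comm k 2]
      · rw [← pow_succ]; exact hg.three (a + 1) k
      · rw [s]; exact hg'.two hQ m a
      · rw [s]; exact hg'.one m (a + 1)

/-- Two solutions of the recurrence with the same first value agree. -/
lemma rec_unique {c u v : ℕ → ℕ → K} (hc : ∀ a b, a + b ≠ 0 → c a b ≠ 0) {F G : ℕ → ℕ → K}
    (h0 : F 0 0 = G 0 0)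
    (hF : ∀ a b, c a b * F a b = u a b * sh (fun x => F x b) a + v a b * sh (F a) b)
    (hG : ∀ a b, c a b * G a b = u a b * sh (fun x => G x b) a + v a b * sh (G a) b) (a b : ℕ) :
    F a b = G a b := by
  induction hn : a + b using Nat.strong_induction_on generalizing a b with
  | _ n ih =>
    by_cases hz : a + b = 0
    · obtain ⟨rfl, rfl⟩ : a = 0 ∧ b = 0 := by omega
      exact h0
    refine mul_left_cancel₀ (hc a b hz) ?_
    have e1 : sh (fun x => F x b) a = sh (fun x => G x b) a := by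
      cases a with
      | zero => rw [sh_zero, sh_zero]
      | succ a => rw [sh_succ, sh_succ]; exact ih (a + b) (by omega) a b rfl
    have e2 : sh (F a) b = sh (G a) b := by
      cases b with
      | zero => rw [sh_zero, sh_zero]
      | succ b => rw [sh_succ, sh_succ]; exact ih (a + b) (by omega) a b rfl
    rw [hF, hG, e1, e2]

/-- The finite product `(p; p)_n`. -/
def pq (p : K) (n : ℕ) : K := ∏ j ∈ range n, (1 - p ^ (j + 1))

theorem formula {q : K} (hq : q ≠ 0) (h1 : ∀ n, 1 - q ^ (n + 1) ≠ 0)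
    (hc : ∀ a b, a + b ≠ 0 →
      q ^ a + (q ^ 2) ^ b * (q ^ a)⁻¹ + q ^ a * ((q ^ 2) ^ b)⁻¹ + (q ^ a)⁻¹ - 4 ≠ 0)
    (hw : ∀ a b, a + b ≠ 0 → wt q a b ≠ 1) {g g' : ℕ → ℕ → K}
    (hg : Pas q g) (hg' : Pas (q ^ 2) g') (J : ℕ → ℕ → K) (h0 : J 0 0 = 1)
    (hJ : ∀ a b, J a b = EE (fun n => (pq q n)⁻¹) (fun n => (pq (q ^ 2) n)⁻¹)
      (fun x y => wt q x y * J x y) a b) (a b : ℕ) :
    (pq q a * pq (q ^ 2) b) ^ 2 * J a b = CC q g g' a b := by
  have h2 : ∀ n, 1 - (q ^ 2) ^ (n + 1) ≠ 0 := fun n => by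
    rw [← pow_mul, show 2 * (n + 1) = 2 * n + 1 + 1 by ring]; exact h1 _
  have st : ∀ (p : K) (n : ℕ), pq p (n + 1) = pq p n * (1 - p ^ (n + 1)) := fun p n =>
    prod_range_succ _ _
  have iv : ∀ p : K, (∀ n, 1 - p ^ (n + 1) ≠ 0) → ∀ n,
      (pq p n)⁻¹ = (1 - p ^ (n + 1)) * (pq p (n + 1))⁻¹ := fun p hp n => by
    rw [st, mul_inv, mul_left_comm, mul_inv_cancel₀ (hp n), mul_one]
  have T := toda hq (e₁ := fun n => (pq q n)⁻¹) (e₂ := fun n => (pq (q ^ 2) n)⁻¹) (by simp [pq])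
    (by simp [pq]) (iv q h1) (iv _ h2) hw J hJ
  refine rec_unique hc (F := fun a b => (pq q a * pq (q ^ 2) b) ^ 2 * J a b) ?_ ?_
    (CC_rec hq h2 hg hg') a b
  · simp [pq, CC, h0, hg.right, hg'.right]
  · intro a b
    have t := T a b
    simp only [HH, inv_pow] at t
    have e1 : (1 - q ^ a) ^ 2 * sh (fun x => (pq q x * pq (q ^ 2) b) ^ 2 * J x b) a =
        (pq q a * pq (q ^ 2) b) ^ 2 * sh (fun x => J x b) a := by
      cases a with
      | zero => simp only [sh_zero, mul_zero]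
      | succ a => simp only [sh_succ, st]; ring
    have e2 : (1 - (q ^ 2) ^ b) ^ 2 * sh (fun y => (pq q a * pq (q ^ 2) y) ^ 2 * J a y) b =
        (pq q a * pq (q ^ 2) b) ^ 2 * sh (J a) b := by
      cases b with
      | zero => simp only [sh_zero, mul_zero]
      | succ b => simp only [sh_succ, st]; ring
    linear_combination (pq q a * pq (q ^ 2) b) ^ 2 * t -
      ((q ^ 2) ^ b + 1) * (q ^ a)⁻¹ * e1 - q ^ a * ((q ^ 2) ^ b)⁻¹ * e2

end Pool.Agent.FS.TodaB2
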