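import Mathlib

set_option autoImplicit false

/-! The difference Toda operator of type `C₂` commutes with the recursion. -/

namespace Pool.Agent.FS.TodaB2

open Finset

variable {K : Type*} [Field K]

/-- Convolution with `e`. -/
def cv (e g : ℕ → K) (a : ℕ) : K := ∑ x ∈ range (a + 1), e (a - x) * g x

/-- Shift by one step. -/
def sh (g : ℕ → K) (a : ℕ) : K := if a = 0 then 0 else g (a - 1)

lemma sh_zero (g : ℕ → K) : sh g 0 = 0 := if_pos rfl

lemma sh_succ (g : ℕ → K) (a : ℕ) : sh g (a + 1) = g a := if_neg (Nat.succ_ne_zero a)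

lemma cv_add (e f g : ℕ → K) (a : ℕ) : cv e (fun x => f x + g x) a = cv e f a + cv e g a := by
  simp only [cv, mul_add, sum_add_distrib]

lemma cv_sub (e f g : ℕ → K) (a : ℕ) : cv e (fun x => f x - g x) a = cv e f a - cv e g a := by
  simp only [cv, mul_sub, sum_sub_distrib]

lemma cv_mul (e f : ℕ → K) (c : K) (a : ℕ) : cv e (fun x => c * f x) a = c * cv e f a := by
  simp only [cv, mul_sum]
  exact sum_congr rfl fun x _ => by ring

lemma cv_zero (e : ℕ → K) (a : ℕ) : cv e (fun _ => 0) a = 0 := by simp [cv]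

lemma cv_sh (e g : ℕ → K) (a : ℕ) : cv e (fun x => sh g x) a = sh (cv e g) a := by
  cases a with
  | zero => simp [cv, sh_zero]
  | succ a =>
    rw [sh_succ, cv, sum_range_succ', sh_zero, mul_zero, add_zero, cv]
    exact sum_congr rfl fun x _ => by rw [sh_succ, Nat.add_sub_add_right]

lemma cv_diff {e : ℕ → K} {p : K} (he : ∀ n, e n = (1 - p ^ (n + 1)) * e (n + 1)) (g : ℕ → K)
    (a : ℕ) : cv e g a - sh (cv e g) a = ∑ x ∈ range (a + 1), p ^ (a - x) * e (a - x) * g x := by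
  cases a with
  | zero => simp [cv, sh_zero]
  | succ a =>
    rw [sh_succ, cv, cv, sum_range_succ _ (a + 1), sum_range_succ _ (a + 1), Nat.sub_self,
      pow_zero, one_mul, add_sub_right_comm, ← sum_sub_distrib]
    congr 1
    refine sum_congr rfl fun x hx => ?_
    have h : a + 1 - x = a - x + 1 := by have := mem_range.1 hx; omega
    rw [h, he (a - x)]
    ring

lemma cv_up {e : ℕ → K} {p : K} (he : ∀ n, e n = (1 - p ^ (n + 1)) * e (n + 1)) (f : ℕ → K)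
    (a : ℕ) : cv e (fun x => p ^ x * f x - sh (fun x => p ^ x * f x) x) a = p ^ a * cv e f a := by
  rw [cv_sub, cv_sh, cv_diff he, cv, mul_sum]
  refine sum_congr rfl fun x hx => ?_
  obtain ⟨d, rfl⟩ := Nat.exists_eq_add_of_le (Nat.lt_succ_iff.1 (mem_range.1 hx))
  rw [Nat.add_sub_cancel_left]
  ring

lemma cv_down {e : ℕ → K} {p : K} (hp : p ≠ 0) (he : ∀ n, e n = (1 - p ^ (n + 1)) * e (n + 1))
    (f : ℕ → K) (a : ℕ) :
    cv e (fun x => p⁻¹ ^ x * f x) a = p⁻¹ ^ a * (cv e f a - sh (cv e f) a) := by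
  rw [cv_diff he, cv, mul_sum]
  refine sum_congr rfl fun x hx => ?_
  obtain ⟨d, rfl⟩ := Nat.exists_eq_add_of_le (Nat.lt_succ_iff.1 (mem_range.1 hx))
  rw [Nat.add_sub_cancel_left]
  have := pow_ne_zero d hp
  have := pow_ne_zero x hp
  simp only [inv_pow, pow_add]
  field_simp

/-- The double convolution. -/
def EE (e₁ e₂ : ℕ → K) (G : ℕ → ℕ → K) (a b : ℕ) : K := cv e₁ (fun x => cv e₂ (G x) b) a

/-- The Toda operator. -/
def HH (q Q : K) (F : ℕ → ℕ → K) (a b : ℕ) : K :=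
  q ^ a * F a b + Q ^ b * (q⁻¹ ^ a * (F a b - sh (fun x => F x b) a)) +
    q ^ a * (Q⁻¹ ^ b * (F a b - sh (F a) b)) + q⁻¹ ^ a * (F a b - sh (fun x => F x b) a)

/-- The conjugate of the Toda operator by the Gaussian weight. -/
def HD (q Q : K) (G : ℕ → ℕ → K) (x y : ℕ) : K :=
  (q ^ x * G x y - sh (fun x => q ^ x * G x y) x) +
    q⁻¹ ^ x * (Q ^ y * G x y - sh (fun y => Q ^ y * G x y) y) +
    (q ^ x * (Q⁻¹ ^ y * G x y) - sh (fun x => q ^ x * (Q⁻¹ ^ y * G x y)) x) + q⁻¹ ^ x * G x y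

lemma cv_outer (e : ℕ → K) (q : K) (G : ℕ → ℕ → K) (x b : ℕ) :
    cv e (fun y => q ^ x * G x y - sh (fun x => q ^ x * G x y) x) b =
      q ^ x * cv e (G x) b - sh (fun x => q ^ x * cv e (G x) b) x := by
  rw [cv_sub, cv_mul]
  cases x with
  | zero => simp only [sh_zero, cv_zero]
  | succ x => simp only [sh_succ, cv_mul]

lemma EE_HD {q Q : K} (hq : q ≠ 0) (hQ : Q ≠ 0) {e₁ e₂ : ℕ → K}
    (h₁ : ∀ n, e₁ n = (1 - q ^ (n + 1)) * e₁ (n + 1))
    (h₂ : ∀ n, e₂ n = (1 - Q ^ (n + 1)) * e₂ (n + 1)) (G : ℕ → ℕ → K) (a b : ℕ) :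
    EE e₁ e₂ (HD q Q G) a b = HH q Q (EE e₁ e₂ G) a b := by
  have inner : ∀ x, cv e₂ (HD q Q G x) b =
      (q ^ x * cv e₂ (G x) b - sh (fun x => q ^ x * cv e₂ (G x) b) x) +
        Q ^ b * (q⁻¹ ^ x * cv e₂ (G x) b) +
        (q ^ x * (Q⁻¹ ^ b * (cv e₂ (G x) b - sh (cv e₂ (G x)) b)) -
          sh (fun x => q ^ x * (Q⁻¹ ^ b * (cv e₂ (G x) b - sh (cv e₂ (G x)) b))) x) +
        q⁻¹ ^ x * cv e₂ (G x) b := by
    intro x
    have e3 := cv_outer e₂ q (fun x y => Q⁻¹ ^ y * G x y) x b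
    simp only [cv_down hQ h₂] at e3
    have e0 : cv e₂ (HD q Q G x) b = cv e₂ (fun y => HD q Q G x y) b := rfl
    rw [e0]
    simp only [HD]
    rw [cv_add, cv_add, cv_add, cv_outer, cv_mul, cv_up h₂, e3, cv_mul]
    ring
  have last : cv e₁ (fun x => sh (cv e₂ (G x)) b) a = sh (EE e₁ e₂ G a) b := by
    cases b with
    | zero => simp only [sh_zero, cv_zero]
    | succ b => simp only [sh_succ, EE]
  have e1 : (fun x => EE e₁ e₂ G x b) = cv e₁ (fun x => cv e₂ (G x) b) := rfl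
  rw [HH, e1]
  simp only [EE, inner]
  rw [cv_add, cv_add, cv_add, cv_up h₁, cv_mul, cv_down hq h₁, cv_up h₁, cv_mul, cv_sub, last]

/-- The Gaussian weight. -/
def wt (q : K) (a b : ℕ) : K := q ^ (a ^ 2 + 2 * b ^ 2) * q⁻¹ ^ (2 * a * b)

lemma wt_left {q : K} (hq : q ≠ 0) (a b : ℕ) :
    wt q (a + 1) b = wt q a b * (q * q ^ a * q ^ a) * (q ^ 2)⁻¹ ^ b := by
  rw [wt, wt, show (a + 1) ^ 2 + 2 * b ^ 2 = a ^ 2 + 2 * b ^ 2 + (1 + a + a) by ring,
    show 2 * (a + 1) * b = 2 * a * b + 2 * b by ring, pow_add q _ (1 + a + a), pow_add q⁻¹,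
    pow_mul q⁻¹ 2 b, inv_pow q 2]
  ring

lemma wt_right {q : K} (hq : q ≠ 0) (a b : ℕ) :
    wt q a (b + 1) = wt q a b * (q ^ 2 * (q ^ 2) ^ b * (q ^ 2) ^ b) * (q⁻¹ ^ a * q⁻¹ ^ a) := by
  rw [wt, wt, show a ^ 2 + 2 * (b + 1) ^ 2 = a ^ 2 + 2 * b ^ 2 + (2 + 2 * b + 2 * b) by ring,
    show 2 * a * (b + 1) = 2 * a * b + (a + a) by ring, pow_add q _ (2 + 2 * b + 2 * b),
    pow_add q⁻¹, pow_add q⁻¹]
  ring

lemma wt_HH {q : K} (hq : q ≠ 0) (F : ℕ → ℕ → K) (a b : ℕ) :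
    wt q a b * HH q (q ^ 2) F a b = HD q (q ^ 2) (fun x y => wt q x y * F x y) a b := by
  have A : wt q a b * q⁻¹ ^ a * sh (fun x => F x b) a =
      (q ^ 2)⁻¹ ^ b * sh (fun x => q ^ x * (wt q x b * F x b)) a := by
    cases a with
    | zero => simp only [sh_zero, mul_zero]
    | succ a =>
      simp only [sh_succ, wt_left hq, inv_pow]
      have := pow_ne_zero a hq
      have := pow_ne_zero b (pow_ne_zero 2 hq)
      rw [pow_succ q a]
      field_simp
  have B : wt q a b * q ^ a * (q ^ 2)⁻¹ ^ b * sh (F a) b =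
      q⁻¹ ^ a * sh (fun y => (q ^ 2) ^ y * (wt q a y * F a y)) b := by
    cases b with
    | zero => simp only [sh_zero, mul_zero]
    | succ b =>
      simp only [sh_succ, wt_right hq, inv_pow]
      have := pow_ne_zero a hq
      have := pow_ne_zero b (pow_ne_zero 2 hq)
      rw [pow_succ (q ^ 2) b]
      field_simp
  have C : sh (fun x => q ^ x * ((q ^ 2)⁻¹ ^ b * (wt q x b * F x b))) a =
      (q ^ 2)⁻¹ ^ b * sh (fun x => q ^ x * (wt q x b * F x b)) a := by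
    cases a with
    | zero => simp only [sh_zero, mul_zero]
    | succ a => simp only [sh_succ]; ring
  have D : (q ^ 2) ^ b * (q ^ 2)⁻¹ ^ b = 1 := by
    rw [← mul_pow, mul_inv_cancel₀ (pow_ne_zero 2 hq), one_pow]
  simp only [HH, HD]
  rw [C]
  linear_combination (-(q ^ 2) ^ b - 1) * A - B -
    sh (fun x => q ^ x * (wt q x b * F x b)) a * D

lemma fix_zero {q : K} {e₁ e₂ : ℕ → K} (h₁ : e₁ 0 = 1) (h₂ : e₂ 0 = 1)
    (hw : ∀ a b, a + b ≠ 0 → wt q a b ≠ 1) (F : ℕ → ℕ → K) (h0 : F 0 0 = 0)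
    (hF : ∀ a b, F a b = EE e₁ e₂ (fun x y => wt q x y * F x y) a b) (a b : ℕ) : F a b = 0 := by
  induction hn : a + b using Nat.strong_induction_on generalizing a b with
  | _ n ih =>
    by_cases hz : a + b = 0
    · obtain ⟨rfl, rfl⟩ : a = 0 ∧ b = 0 := by omega
      exact h0
    have h := hF a b
    rw [EE, cv, sum_range_succ, sum_eq_zero, cv, sum_range_succ, sum_eq_zero, Nat.sub_self,
      Nat.sub_self, h₁, h₂] at h
    · have h3 : (1 - wt q a b) * F a b = 0 := by linear_combination h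
      exact (mul_eq_zero.1 h3).resolve_left (sub_ne_zero.2 (hw a b hz).symm)
    · intro y hy
      rw [ih (a + y) (by have := mem_range.1 hy; omega) a y rfl, mul_zero, mul_zero]
    · intro x hx
      rw [cv, sum_eq_zero, mul_zero]
      intro y hy
      rw [ih (x + y) (by have := mem_range.1 hx; have := mem_range.1 hy; omega) x y rfl, mul_zero,
        mul_zero]

theorem toda {q : K} (hq : q ≠ 0) {e₁ e₂ : ℕ → K} (z₁ : e₁ 0 = 1) (z₂ : e₂ 0 = 1)
    (h₁ : ∀ n, e₁ n = (1 - q ^ (n + 1)) * e₁ (n + 1))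
    (h₂ : ∀ n, e₂ n = (1 - (q ^ 2) ^ (n + 1)) * e₂ (n + 1))
    (hw : ∀ a b, a + b ≠ 0 → wt q a b ≠ 1) (J : ℕ → ℕ → K)
    (hJ : ∀ a b, J a b = EE e₁ e₂ (fun x y => wt q x y * J x y) a b) (a b : ℕ) :
    HH q (q ^ 2) J a b = 4 * J a b := by
  have hJ' : EE e₁ e₂ (fun x y => wt q x y * J x y) = J := by
    funext a b; exact (hJ a b).symm
  refine sub_eq_zero.1 (fix_zero z₁ z₂ hw (fun a b => HH q (q ^ 2) J a b - 4 * J a b) ?_ ?_ a b)
  · simp only [HH, sh_zero]; ring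
  · intro a b
    have e := EE_HD hq (pow_ne_zero 2 hq) h₁ h₂ (fun x y => wt q x y * J x y) a b
    rw [hJ'] at e
    have l : ∀ x, (fun y => wt q x y * (HH q (q ^ 2) J x y - 4 * J x y)) = fun y =>
        HD q (q ^ 2) (fun x y => wt q x y * J x y) x y - 4 * (wt q x y * J x y) := by
      intro x; funext y; rw [← wt_HH hq]; ring
    show HH q (q ^ 2) J a b - 4 * J a b = _
    rw [← e, hJ a b]
    simp only [EE, l, cv_sub, cv_mul]

end Pool.Agent.FS.TodaB2
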